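import Pool.Agent.K3h14.FD.Stm2
import Pool.Agent.K3h90.FD.Dom

/-!
# Brick HDOM: homogeneous integral dependence
-/

set_option autoImplicit false
set_option linter.unusedSectionVars false
set_option backward.isDefEq.respectTransparency false
set_option backward.defeqAttrib.useBackward true

open CategoryTheory Limits MonoidalCategory
open Pool.Agent.Y112.SR Pool.Agent.Y112.KD Pool.Agent.Y112.SC Pool.Agent.K3h63.CC
open Pool.Agent.K3h14.FD

namespace Pool.Agent.K3h12.FD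

open Pool.Agent.K3h90.FD (wr wr_comp wr_one wr_sum alg_wr)

universe v u w

section

variable {C : Type u} [Category.{v} C] [Preadditive C] [MonoidalCategory C] [SymmetricCategory C]
  {K : Type w} [Field K] {R : SuperRealisation C K} {𝒴 : Set C}

/-- Domination with any finite index type. -/
lemma domBy_of_fintype {ι : Type*} [Fintype ι] {X : C} (Y : ι → C)
    (φ : ∀ i, R.H.obj X ⟶ R.H.obj (Y i)) (ψ : ∀ i, R.H.obj (Y i) ⟶ R.H.obj X)
    (hY : ∀ i, Y i ∈ 𝒴) (hφ : ∀ i, Algebraic R ⊤ (φ i))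
    (hψ : ∀ i, Algebraic R ⊤ (ψ i)) (h : ∑ i, φ i ≫ ψ i = 𝟙 _) : DomBy (R := R) 𝒴 X := by
  classical
  let e := Fintype.equivFin ι
  refine ⟨Fintype.card ι, fun j => Y (e.symm j), fun j => φ (e.symm j),
    fun j => ψ (e.symm j), fun j => hY _, fun j => hφ _, fun j => hψ _, ?_⟩
  rw [← h]
  exact Equiv.sum_comp e.symm fun i => φ i ≫ ψ i

/-- Domination is transitive. -/
lemma domBy_trans {ι : Type*} [Fintype ι] {X : C} (Y : ι → C)
    (φ : ∀ i, R.H.obj X ⟶ R.H.obj (Y i)) (ψ : ∀ i, R.H.obj (Y i) ⟶ R.H.obj X)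
    (hφ : ∀ i, Algebraic R ⊤ (φ i)) (hψ : ∀ i, Algebraic R ⊤ (ψ i)) (h : ∑ i, φ i ≫ ψ i = 𝟙 _)
    (hY : ∀ i, DomBy (R := R) 𝒴 (Y i)) : DomBy (R := R) 𝒴 X := by
  choose n D φ' ψ' hD hφ' hψ' hs using hY
  refine domBy_of_fintype (ι := Σ i, Fin (n i)) (fun p => D p.1 p.2)
    (fun p => φ p.1 ≫ φ' p.1 p.2) (fun p => ψ' p.1 p.2 ≫ ψ p.1) (fun p => hD _ _)
    (fun p => (hφ _).comp (hφ' _ _)) (fun p => (hψ' _ _).comp (hψ _)) ?_
  rw [Fintype.sum_sigma, ← h]
  refine Finset.sum_congr rfl fun i _ => ?_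
  have h1 : ∀ j, (φ i ≫ φ' i j) ≫ ψ' i j ≫ ψ i = φ i ≫ (φ' i j ≫ ψ' i j) ≫ ψ i := fun j => by
    simp only [Category.assoc]
  simp only [h1]
  rw [← Preadditive.comp_sum, ← Preadditive.sum_comp, hs i, Category.id_comp]

lemma domBy_iso {X Y : C} (e : X ≅ Y) (h : DomBy (R := R) 𝒴 Y) : DomBy (R := R) 𝒴 X := by
  refine domBy_trans (ι := Unit) (fun _ => Y) (fun _ => R.H.map e.hom) (fun _ => R.H.map e.inv)
    (fun _ => Algebraic.map _) (fun _ => Algebraic.map _) ?_ fun _ => h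
  rw [Fintype.sum_unique, ← Functor.map_comp, e.hom_inv_id, CategoryTheory.Functor.map_id]

lemma domBy_self {Y : C} (hY : Y ∈ 𝒴) : DomBy (R := R) 𝒴 Y :=
  domBy_of_fintype (ι := Unit) (fun _ => Y) (fun _ => 𝟙 _) (fun _ => 𝟙 _)
    (fun _ => hY) (fun _ => Algebraic.one _) (fun _ => Algebraic.one _) (by
      rw [Fintype.sum_unique, Category.comp_id])

/-- Domination and tensor products with an object. -/
lemma domBy_tensor {𝒵 : Set C} {X : C} (B : C) (h : DomBy (R := R) 𝒵 X)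
    (hZ : ∀ Z ∈ 𝒵, DomBy (R := R) 𝒴 (Z ⊗ B)) : DomBy (R := R) 𝒴 (X ⊗ B) := by
  obtain ⟨l, Y, φ, ψ, hY, hφ, hψ, hs⟩ := h
  refine domBy_trans (ι := Fin l) (fun i => Y i ⊗ B) (fun i => wr (φ i) B)
    (fun i => wr (ψ i) B) (fun i => alg_wr (hφ i) B) (fun i => alg_wr (hψ i) B) ?_
    fun i => hZ _ (hY i)
  simp only [← wr_comp]
  rw [← wr_sum, hs, wr_one]

end

/-- Homogeneous integral dependence. -/
theorem t_HDOM : S_HDOM.{u, v, w} := by
  intro C _ _ _ _ _ _ _ _ K _ _ R A B n 𝒯 hn h1 hmul h m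
  induction m with
  | zero =>
    exact domBy_iso (ρ_ (prodPow A B 0)).symm
      (domBy_self ⟨0, hn, le_refl 0, 𝟙_ C, h1, rfl⟩)
  | succ m ih =>
    refine domBy_tensor B ih ?_
    rintro Y ⟨j, hj, hjm, T, hT, hY⟩
    have e : Y ⊗ B ≅ prodPow A B (j + 1) ⊗ T :=
      whiskerRightIso (eqToIso hY) B ≪≫ α_ (prodPow A B j) T B ≪≫
        (whiskerLeftIso (prodPow A B j) (β_ T B)) ≪≫ (α_ (prodPow A B j) B T).symm
    refine domBy_iso e ?_
    rcases Nat.lt_or_ge (j + 1) n with h2 | h2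
    · refine domBy_self ⟨j + 1, h2, by omega, T, ?_, rfl⟩
      have h3 : m + 1 - (j + 1) = m - j := by omega
      rw [h3]
      exact hT
    · obtain rfl : n = j + 1 := by omega
      refine domBy_tensor T h ?_
      rintro Z ⟨i, hi, T', hT', hZ⟩
      refine domBy_iso (whiskerRightIso (eqToIso hZ) T ≪≫ α_ (prodPow A B i) T' T)
        (domBy_self ⟨i, hi, by omega, T' ⊗ T, ?_, rfl⟩)
      have h3 := hmul _ _ T' T hT' hT
      have h4 : j + 1 - i + (m - j) = m + 1 - i := by omega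
      rw [h4] at h3
      exact h3

end Pool.Agent.K3h12.FD
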